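import Pool.Agent.Helper288.ConeP
import Pool.Agent.H643R2.TrOps

/-!
# The cones of `s_<`, `s_≠`, `s_>` are not minimal with respect to bounded languages (MP_3a8f7c)

For each of the three cones there is a strictly bounded language of degree three in the cone which
is not regular and does not generate the cone.
-/

set_option autoImplicit false

namespace Pool.Agent.Results.MP_3a8f7c_lc.NotMinimal

open Pool.Agent.Helper288.Cone

/-- `L` is bounded of degree `k`: it is contained in `w_1* w_2* ... w_k*`. -/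
def BoundedDeg (k : ℕ) {X : Type} (L : Language X) : Prop :=
  ∃ w : Fin k → List X, ∀ v ∈ L, ∃ n : Fin k → ℕ,
    v = (List.ofFn fun j => (List.replicate (n j) (w j)).flatten).flatten

/-- `L` generates the cone `T(G)`: the cones `T(L)` and `T(G)` are equal. -/
def Generates {W X : Type} (G : Language W) (L : Language X) : Prop :=
  ∀ (Y : Type) [Fintype Y] (N : Language Y), InCone L N ↔ InCone G N

/-- The cone `T(G)` is minimal with respect to bounded languages of degree `k`. -/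
def MinimalBounded (k : ℕ) {W : Type} (G : Language W) : Prop :=
  ∀ (X : Type) [Fintype X] (L : Language X), BoundedDeg k L → InCone G L →
    L.IsRegular ∨ Generates G L

/-- The word `a^m b^n`. -/
def w2 (m n : ℕ) : List (Fin 2) := List.replicate m 0 ++ List.replicate n 1

/-- `{a^m b^n : n ≤ m}` -/
def sLt : Language (Fin 2) := {v | ∃ m n : ℕ, n ≤ m ∧ v = w2 m n}

/-- `{a^m b^n : n ≠ m}` -/
def sNe : Language (Fin 2) := {v | ∃ m n : ℕ, n ≠ m ∧ v = w2 m n}

/-- `{a^m b^n : n ≥ m}` -/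
def sGt : Language (Fin 2) := {v | ∃ m n : ℕ, n ≥ m ∧ v = w2 m n}

/-! ## Linear sets -/

section lin

/-- pairs of exponent vectors -/
abbrev M3 : Type := (Fin 3 → ℕ) × (Fin 3 → ℕ)

/-- the element of a linear set with given coefficients -/
def El (c : M3) (Ω : Finset M3) (g : M3 → ℕ) : M3 := c + ∑ s ∈ Ω, g s • s

theorem El_fst (c : M3) (Ω : Finset M3) (g : M3 → ℕ) (i : Fin 3) :
    (El c Ω g).1 i = c.1 i + ∑ s ∈ Ω, g s * s.1 i := by
  simp [El, Prod.fst_sum, Finset.sum_apply]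

theorem El_snd (c : M3) (Ω : Finset M3) (g : M3 → ℕ) (i : Fin 3) :
    (El c Ω g).2 i = c.2 i + ∑ s ∈ Ω, g s * s.2 i := by
  simp [El, Prod.snd_sum, Finset.sum_apply]

theorem El_mem {B : Set M3} {c : M3} {Ω : Finset M3}
    (hB : ∀ x, x ∈ B ↔ ∃ y ∈ AddSubmonoid.closure (Ω : Set M3), x = c + y) (g : M3 → ℕ) :
    El c Ω g ∈ B := by
  rw [hB]
  refine ⟨_, ?_, rfl⟩
  refine sum_mem fun s hs => nsmul_mem (AddSubmonoid.subset_closure ?_) _
  exact hs

theorem exists_El {B : Set M3} {c : M3} {Ω : Finset M3}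
    (hB : ∀ x, x ∈ B ↔ ∃ y ∈ AddSubmonoid.closure (Ω : Set M3), x = c + y) {x : M3}
    (hx : x ∈ B) : ∃ g : M3 → ℕ, x = El c Ω g := by
  obtain ⟨y, hy, rfl⟩ := (hB x).1 hx
  obtain ⟨f, -, rfl⟩ := AddSubmonoid.mem_closure_finset.1 hy
  exact ⟨f, rfl⟩

/-- adding a multiple of a period -/
theorem El_add (c : M3) (Ω : Finset M3) (g : M3 → ℕ) {s : M3} (hs : s ∈ Ω) (t : ℕ) :
    El c Ω (fun r => g r + if r = s then t else 0) = El c Ω g + t • s := by
  unfold El
  rw [add_assoc]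
  congr 1
  simp only [add_smul, Finset.sum_add_distrib, ite_smul, zero_smul]
  congr 1
  rw [Finset.sum_ite_eq' Ω s (fun r => t • r), if_pos hs]

/-- removing a multiple of a period -/
theorem El_sub (c : M3) (Ω : Finset M3) (g : M3 → ℕ) {s : M3} (hs : s ∈ Ω) (t : ℕ)
    (ht : t ≤ g s) :
    El c Ω (fun r => g r - if r = s then t else 0) + t • s = El c Ω g := by
  rw [← El_add c Ω _ hs t]
  unfold El
  congr 1
  refine Finset.sum_congr rfl fun r _ => ?_
  congr 1
  by_cases h : r = s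
  · subst h
    simp only [if_true]
    omega
  · simp [h]

theorem per_facts {s : M3} (hs : s ∈ Per 3) :
    (∀ i j, i ≠ j → s.1 i = 0 ∨ s.1 j = 0) ∧ (∀ i j, i ≠ j → s.2 i = 0 ∨ s.2 j = 0) := by
  obtain ⟨a, b, q, p, rfl⟩ := hs
  constructor
  · intro i j hij
    simp only [Pi.single_apply]
    by_cases h : i = a
    · right
      rw [if_neg]
      rintro rfl
      exact hij h
    · left
      rw [if_neg h]
  · intro i j hij
    simp only [Pi.single_apply]
    by_cases h : i = b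
    · right
      rw [if_neg]
      rintro rfl
      exact hij h
    · left
      rw [if_neg h]

/-- The bound used for `s_<` and `s_>`. -/
theorem bound_le {B : Set M3} {c : M3} {Ω : Finset M3} (hΩ : ∀ s ∈ Ω, s ∈ Per 3)
    (hB : ∀ x, x ∈ B ↔ ∃ y ∈ AddSubmonoid.closure (Ω : Set M3), x = c + y)
    {i0 i1 i2 j0 j1 : Fin 3} (h01 : i0 ≠ i1) (h02 : i0 ≠ i2) (h12 : i1 ≠ i2) (hj : j0 ≠ j1)
    (H : ∀ x ∈ B, (x.1 i1 ≤ x.1 i0 ∨ x.1 i2 ≤ x.1 i0) → x.2 j1 ≤ x.2 j0) :
    ∃ N₀ : ℕ, ∀ x ∈ B, x.2 j0 = x.2 j1 → x.1 i1 ≤ x.1 i0 → x.2 j1 ≤ N₀ := by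
  classical
  refine ⟨c.2 j1 + (∑ s ∈ Ω, s.2 j1) * (c.1 i2 + 1), fun x hx he hle => ?_⟩
  by_contra hlt
  rw [not_le] at hlt
  obtain ⟨g, rfl⟩ := exists_El hB hx
  -- first claim
  have hS : ∀ s ∈ Ω, 0 < s.2 j1 → s.1 i0 = 0 ∧ 0 < s.1 i1 ∧ s.1 i2 = 0 := by
    intro s hs hpos
    have f1 := (per_facts (hΩ s hs)).1
    have f2 := (per_facts (hΩ s hs)).2
    have hj0 : s.2 j0 = 0 := by
      rcases f2 j0 j1 hj with h | h
      · exact h
      · omega
    have hm := El_mem hB (fun r => g r + if r = s then 1 else 0)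
    have h1 := H _ hm
    rw [El_add c Ω g hs 1] at h1
    simp only [one_smul, Prod.fst_add, Prod.snd_add, Pi.add_apply] at h1
    have h3 : ¬ ((El c Ω g).1 i1 + s.1 i1 ≤ (El c Ω g).1 i0 + s.1 i0 ∨
        (El c Ω g).1 i2 + s.1 i2 ≤ (El c Ω g).1 i0 + s.1 i0) := by
      intro h
      have := h1 h
      omega
    rw [not_or] at h3
    have hi1 : 0 < s.1 i1 := by
      rcases f1 i0 i1 h01 with h | h <;> omega
    refine ⟨?_, hi1, ?_⟩
    · rcases f1 i0 i1 h01 with h | h <;> omega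
    · rcases f1 i1 i2 h12 with h | h <;> omega
  set S := ∑ s ∈ Ω, s.2 j1 with hSdef
  -- the coordinate `i1` is large
  have hlarge : c.1 i2 < (El c Ω g).1 i1 := by
    have h1 : ∑ s ∈ Ω, g s * s.2 j1 ≤ ∑ s ∈ Ω, S * (g s * s.1 i1) := by
      refine Finset.sum_le_sum fun s hs => ?_
      rcases Nat.eq_zero_or_pos (s.2 j1) with h | h
      · rw [h, mul_zero]; exact Nat.zero_le _
      · have h2 := (hS s hs h).2.1
        have h3 : s.2 j1 ≤ S := Finset.single_le_sum (f := fun s : M3 => s.2 j1)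
          (fun _ _ => Nat.zero_le _) hs
        calc g s * s.2 j1 ≤ g s * S := Nat.mul_le_mul_left _ h3
          _ = S * (g s * 1) := by ring
          _ ≤ S * (g s * s.1 i1) := Nat.mul_le_mul_left _ (Nat.mul_le_mul_left _ h2)
    rw [← Finset.mul_sum] at h1
    have h2 := El_snd c Ω g j1
    have h3 := El_fst c Ω g i1
    by_contra hcon
    have h4 : ∑ s ∈ Ω, g s * s.1 i1 ≤ c.1 i2 + 1 := by omega
    have h5 := Nat.mul_le_mul_left S h4
    omega
  -- remove the periods reading the coordinate `i2`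
  set g' : M3 → ℕ := fun s => if s.1 i2 = 0 then g s else 0 with hg'
  have e0 : (El c Ω g').1 i0 = (El c Ω g).1 i0 := by
    rw [El_fst, El_fst]
    congr 1
    refine Finset.sum_congr rfl fun s hs => ?_
    simp only [hg']
    split_ifs with h
    · rfl
    · rcases (per_facts (hΩ s hs)).1 i0 i2 h02 with h' | h'
      · rw [h', mul_zero, mul_zero]
      · exact absurd h' h
  have e1 : (El c Ω g').1 i1 = (El c Ω g).1 i1 := by
    rw [El_fst, El_fst]
    congr 1
    refine Finset.sum_congr rfl fun s hs => ?_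
    simp only [hg']
    split_ifs with h
    · rfl
    · rcases (per_facts (hΩ s hs)).1 i1 i2 h12 with h' | h'
      · rw [h', mul_zero, mul_zero]
      · exact absurd h' h
  have e2 : (El c Ω g').1 i2 = c.1 i2 := by
    rw [El_fst]
    have : ∑ s ∈ Ω, g' s * s.1 i2 = 0 := by
      refine Finset.sum_eq_zero fun s _ => ?_
      simp only [hg']
      split_ifs with h
      · rw [h, mul_zero]
      · rw [zero_mul]
    omega
  have e3 : (El c Ω g').2 j1 = (El c Ω g).2 j1 := by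
    rw [El_snd, El_snd]
    congr 1
    refine Finset.sum_congr rfl fun s hs => ?_
    simp only [hg']
    split_ifs with h
    · rfl
    · rcases Nat.eq_zero_or_pos (s.2 j1) with h' | h'
      · rw [h', mul_zero, mul_zero]
      · exact absurd (hS s hs h').2.2 h
  have e4 : (El c Ω g').2 j0 ≤ (El c Ω g).2 j0 := by
    rw [El_snd, El_snd]
    refine Nat.add_le_add_left (Finset.sum_le_sum fun s hs => ?_) _
    simp only [hg']
    split_ifs with h
    · exact le_rfl
    · rw [zero_mul]; exact Nat.zero_le _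
  -- a period with positive output `j1`
  have hex : ∃ s ∈ Ω, 0 < s.2 j1 := by
    by_contra hcon
    push Not at hcon
    have : ∑ s ∈ Ω, g s * s.2 j1 = 0 := by
      refine Finset.sum_eq_zero fun s hs => ?_
      have := hcon s hs
      have h0 : s.2 j1 = 0 := by omega
      rw [h0, mul_zero]
    have h2 := El_snd c Ω g j1
    omega
  obtain ⟨s, hs, hpos⟩ := hex
  have hj0 : s.2 j0 = 0 := by
    rcases (per_facts (hΩ s hs)).2 j0 j1 hj with h | h
    · exact h
    · omega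
  obtain ⟨k1, k2, k3⟩ := hS s hs hpos
  have hm := El_mem hB (fun r => g' r + if r = s then 1 else 0)
  have h1 := H _ hm
  rw [El_add c Ω g' hs 1] at h1
  simp only [one_smul, Prod.fst_add, Prod.snd_add, Pi.add_apply, e0, e1, e2, e3, hj0, k1, k3]
    at h1
  have := h1 (Or.inr (by omega))
  omega

/-- The fact used for `s_≠`. -/
theorem bound_ne {B : Set M3} {c : M3} {Ω : Finset M3} (hΩ : ∀ s ∈ Ω, s ∈ Per 3)
    (hB : ∀ x, x ∈ B ↔ ∃ y ∈ AddSubmonoid.closure (Ω : Set M3), x = c + y)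
    (H : ∀ x ∈ B, ¬ (x.1 0 = x.1 1 ∧ x.1 1 = x.1 2) → x.2 1 ≠ x.2 0) :
    ∃ k₀ : ℕ, ∀ k, k₀ ≤ k → ∀ x ∈ B, ¬ (x.1 0 = x.1 1 ∧ x.1 1 = x.1 2) →
      x.2 0 = k.factorial * k → x.2 1 = k.factorial * k + k.factorial → False := by
  classical
  refine ⟨Ω.card + c.2 0 + c.2 1 + 1 + (∑ s ∈ Ω, (s.2 0 + s.2 1)), fun k hk x hx hne h0 h1 => ?_⟩
  obtain ⟨g, rfl⟩ := exists_El hB hx
  have hkf : k ≤ k.factorial := Nat.self_le_factorial k
  have hk1 : 1 ≤ k := by omega
  have hdvd : ∀ s ∈ Ω, ∀ j, (j = 0 ∨ j = 1) → 0 < s.2 j → s.2 j ∣ k.factorial := by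
    intro s hs j hj hpos
    refine Nat.dvd_factorial hpos ?_
    have h3 : s.2 0 + s.2 1 ≤ ∑ s ∈ Ω, (s.2 0 + s.2 1) :=
      Finset.single_le_sum (f := fun s : M3 => s.2 0 + s.2 1) (fun _ _ => Nat.zero_le _) hs
    rcases hj with rfl | rfl <;> omega
  have hmul : k.factorial * k ≥ k.factorial := Nat.le_mul_of_pos_right _ hk1
  -- a period with a positive output `0`
  have hex0 : ∃ s ∈ Ω, 0 < s.2 0 := by
    by_contra hcon
    push Not at hcon
    have : ∑ s ∈ Ω, g s * s.2 0 = 0 := by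
      refine Finset.sum_eq_zero fun s hs => ?_
      have := hcon s hs
      have h0 : s.2 0 = 0 := by omega
      rw [h0, mul_zero]
    have h2 := El_snd c Ω g 0
    omega
  -- a removable period with positive output `1`
  have hex1 : ∃ s ∈ Ω, 0 < s.2 1 ∧ k.factorial ≤ g s * s.2 1 := by
    by_contra hcon
    push Not at hcon
    have hb : ∑ s ∈ Ω, g s * s.2 1 ≤ ∑ s ∈ Ω, k.factorial := by
      refine Finset.sum_le_sum fun s hs => ?_
      rcases Nat.eq_zero_or_pos (s.2 1) with h | h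
      · rw [h, mul_zero]; exact Nat.zero_le _
      · exact (hcon s hs h).le
    rw [Finset.sum_const, smul_eq_mul] at hb
    have h2 := El_snd c Ω g 1
    have h3 : (Ω.card + c.2 1) * k.factorial ≤ k.factorial * k := by
      rw [mul_comm]
      exact Nat.mul_le_mul_left _ (by omega)
    have h4 : c.2 1 ≤ c.2 1 * k.factorial := Nat.le_mul_of_pos_right _ (Nat.factorial_pos k)
    have h5 : (Ω.card + c.2 1) * k.factorial = Ω.card * k.factorial + c.2 1 * k.factorial := by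
      ring
    have h6 := Nat.factorial_pos k
    omega
  obtain ⟨s, hs, hpos⟩ := hex0
  obtain ⟨r, hr, hrpos, hrg⟩ := hex1
  obtain ⟨t, ht⟩ := hdvd s hs 0 (Or.inl rfl) hpos
  obtain ⟨u, hu⟩ := hdvd r hr 1 (Or.inr rfl) hrpos
  have hs1 : s.2 1 = 0 := by
    rcases (per_facts (hΩ s hs)).2 0 1 (by decide) with h | h
    · omega
    · exact h
  have hr0 : r.2 0 = 0 := by
    rcases (per_facts (hΩ r hr)).2 0 1 (by decide) with h | h
    · exact h
    · omega
  -- add `t` copies of `s`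
  have hm := El_mem hB (fun a => g a + if a = s then t else 0)
  have a1 := H _ hm
  rw [El_add c Ω g hs t] at a1
  simp only [Prod.fst_add, Prod.snd_add, Prod.smul_fst, Prod.smul_snd, Pi.add_apply,
    Pi.smul_apply, smul_eq_mul] at a1
  have a2 : (El c Ω g).1 0 + t * s.1 0 = (El c Ω g).1 1 + t * s.1 1 ∧
      (El c Ω g).1 1 + t * s.1 1 = (El c Ω g).1 2 + t * s.1 2 := by
    by_contra hcon
    refine a1 hcon ?_
    rw [h0, h1, hs1, mul_zero]
    rw [mul_comm t, ← ht]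
    omega
  -- remove `u` copies of `r`
  have hug : u ≤ g r := by
    rw [hu, mul_comm] at hrg
    exact Nat.le_of_mul_le_mul_right hrg hrpos
  have hm' := El_mem hB (fun a => g a - if a = r then u else 0)
  have b1 := H _ hm'
  have b0 := El_sub c Ω g hr u hug
  set y := El c Ω (fun a => g a - if a = r then u else 0) with hy
  have c0 : ∀ i, y.1 i + u * r.1 i = (El c Ω g).1 i := by
    intro i
    rw [← b0]
    simp
  have c1 : ∀ i, y.2 i + u * r.2 i = (El c Ω g).2 i := by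
    intro i
    rw [← b0]
    simp
  have b2 : y.1 0 = y.1 1 ∧ y.1 1 = y.1 2 := by
    by_contra hcon
    refine b1 hcon ?_
    have d0 := c1 0
    have d1 := c1 1
    rw [h0, hr0, mul_zero] at d0
    rw [h1, mul_comm u, ← hu] at d1
    omega
  -- conclusion
  have d0 := c0 0
  have d1 := c0 1
  have d2 := c0 2
  have f1 := (per_facts (hΩ s hs)).1
  have f2 := (per_facts (hΩ r hr)).1
  have k1 : t * s.1 0 = 0 ∨ t * s.1 1 = 0 := by
    rcases f1 0 1 (by decide) with h | h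
    · left; rw [h, mul_zero]
    · right; rw [h, mul_zero]
  have k2 : t * s.1 0 = 0 ∨ t * s.1 2 = 0 := by
    rcases f1 0 2 (by decide) with h | h
    · left; rw [h, mul_zero]
    · right; rw [h, mul_zero]
  have k3 : t * s.1 1 = 0 ∨ t * s.1 2 = 0 := by
    rcases f1 1 2 (by decide) with h | h
    · left; rw [h, mul_zero]
    · right; rw [h, mul_zero]
  have l1 : u * r.1 0 = 0 ∨ u * r.1 1 = 0 := by
    rcases f2 0 1 (by decide) with h | h
    · left; rw [h, mul_zero]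
    · right; rw [h, mul_zero]
  have l2 : u * r.1 0 = 0 ∨ u * r.1 2 = 0 := by
    rcases f2 0 2 (by decide) with h | h
    · left; rw [h, mul_zero]
    · right; rw [h, mul_zero]
  have l3 : u * r.1 1 = 0 ∨ u * r.1 2 = 0 := by
    rcases f2 1 2 (by decide) with h | h
    · left; rw [h, mul_zero]
    · right; rw [h, mul_zero]
  apply hne
  omega

end lin

/-! ## Words -/

/-- The word `a^x b^y c^z`. -/
def w3 (x y z : ℕ) : List (Fin 3) :=
  List.replicate x 0 ++ List.replicate y 1 ++ List.replicate z 2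

/-- `{a^m b^n : P m n}` -/
def sP (P : ℕ → ℕ → Prop) : Language (Fin 2) := {v | ∃ m n : ℕ, P m n ∧ v = w2 m n}

/-- `{a^x b^y c^z : Q x y z}` -/
def lQ (Q : ℕ → ℕ → ℕ → Prop) : Language (Fin 3) := {v | ∃ x y z : ℕ, Q x y z ∧ v = w3 x y z}

theorem count_w2 (m n : ℕ) : (w2 m n).count 0 = m ∧ (w2 m n).count 1 = n := by
  constructor
  · simp [w2, List.count_append, List.count_replicate]
  · simp [w2, List.count_append, List.count_replicate]

theorem w2_inj {m n m' n' : ℕ} (h : w2 m n = w2 m' n') : m = m' ∧ n = n' := by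
  have h1 := congrArg (List.count 0) h
  have h2 := congrArg (List.count 1) h
  rw [(count_w2 _ _).1, (count_w2 _ _).1] at h1
  rw [(count_w2 _ _).2, (count_w2 _ _).2] at h2
  exact ⟨h1, h2⟩

theorem cnt_w3 (x y z : ℕ) : cnt (w3 x y z) = ![x, y, z] := by
  funext i
  fin_cases i <;> simp [cnt, w3, List.count_append, List.count_replicate]

theorem sorted_w3 (x y z : ℕ) : (w3 x y z).Pairwise (· ≤ ·) := by
  unfold w3
  rw [List.pairwise_append, List.pairwise_append]
  refine ⟨⟨?_, ?_, ?_⟩, ?_, ?_⟩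
  · exact List.pairwise_replicate.2 (Or.inr le_rfl)
  · exact List.pairwise_replicate.2 (Or.inr le_rfl)
  · intro a ha b hb
    rw [List.eq_of_mem_replicate ha]
    exact Fin.zero_le _
  · exact List.pairwise_replicate.2 (Or.inr le_rfl)
  · intro a ha b hb
    rw [List.eq_of_mem_replicate hb]
    exact Fin.le_last a

theorem eq_w3 (v : List (Fin 3)) (hv : v.Pairwise (· ≤ ·)) :
    v = w3 (v.count 0) (v.count 1) (v.count 2) := by
  refine List.Perm.eq_of_pairwise (fun a b _ _ h1 h2 => le_antisymm h1 h2) hv (sorted_w3 _ _ _) ?_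
  rw [List.perm_iff_count]
  intro a
  have := congrFun (cnt_w3 (v.count 0) (v.count 1) (v.count 2)) a
  unfold cnt at this
  rw [this]
  fin_cases a <;> rfl

theorem sorted_w2 (m n : ℕ) : (w2 m n).Pairwise (· ≤ ·) := by
  unfold w2
  rw [List.pairwise_append]
  refine ⟨List.pairwise_replicate.2 (Or.inr le_rfl), List.pairwise_replicate.2 (Or.inr le_rfl), ?_⟩
  intro a ha b hb
  rw [List.eq_of_mem_replicate ha]
  exact Fin.zero_le _

/-! ## From a transduction to linear sets -/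

theorem extract {P : ℕ → ℕ → Prop} {Q : ℕ → ℕ → ℕ → Prop} (h : InCone (lQ Q) (sP P)) :
    ∃ A : Set M3, SLin (Per 3) A ∧
      (∀ m n, P m n → ∃ a ∈ A, Q (a.1 0) (a.1 1) (a.1 2) ∧ a.2 0 = m ∧ a.2 1 = n) ∧
      (∀ a ∈ A, Q (a.1 0) (a.1 1) (a.1 2) → P (a.2 0) (a.2 1)) := by
  obtain ⟨T, hT⟩ := h.exists_tr
  let T' : Tr (Fin 3) (Fin 3) := Pool.Agent.H643R2.TrOps.map T id (Fin.castSucc : Fin 2 → Fin 3)
  have hT' : ∀ u v, T'.rel u v ↔ ∃ v0, T.rel u v0 ∧ v = v0.map Fin.castSucc := by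
    intro u v
    rw [Pool.Agent.H643R2.TrOps.map_rel]
    constructor
    · rintro ⟨u0, v0, h1, rfl, rfl⟩
      exact ⟨v0, by simpa using h1, rfl⟩
    · rintro ⟨v0, h1, rfl⟩
      exact ⟨u, v0, h1, by simp, rfl⟩
  have hcount : ∀ (v : List (Fin 2)), cnt (v.map (Fin.castSucc : Fin 2 → Fin 3)) 0 = v.count 0 ∧
      cnt (v.map (Fin.castSucc : Fin 2 → Fin 3)) 1 = v.count 1 := by
    intro v
    unfold cnt
    constructor
    · exact List.count_map_of_injective v _ (Fin.castSucc_injective 2) 0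
    · exact List.count_map_of_injective v _ (Fin.castSucc_injective 2) 1
  refine ⟨PP T', PP_slin T', ?_, ?_⟩
  · intro m n hmn
    obtain ⟨u, ⟨x, y, z, hQ, rfl⟩, hr⟩ := (hT (w2 m n)).1 ⟨m, n, hmn, rfl⟩
    refine ⟨(cnt (w3 x y z), cnt ((w2 m n).map Fin.castSucc)),
      ⟨_, _, (hT' _ _).2 ⟨_, hr, rfl⟩, sorted_w3 x y z, ?_, rfl⟩, ?_, ?_, ?_⟩
    · rw [List.pairwise_map]
      exact (sorted_w2 m n).imp (fun h => h)
    · rw [cnt_w3]
      exact hQ
    · exact (hcount _).1.trans (count_w2 m n).1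
    · exact (hcount _).2.trans (count_w2 m n).2
  · rintro a ⟨u, v, hr, hu, hv, rfl⟩ hQ
    obtain ⟨v0, hr0, rfl⟩ := (hT' _ _).1 hr
    have hmem : u ∈ lQ Q := ⟨u.count 0, u.count 1, u.count 2, hQ, eq_w3 u hu⟩
    obtain ⟨m, n, hP, rfl⟩ := (hT v0).2 ⟨u, hmem, hr0⟩
    have g0 := (hcount (w2 m n)).1.trans (count_w2 m n).1
    have g1 := (hcount (w2 m n)).2.trans (count_w2 m n).2
    show P (cnt ((w2 m n).map (Fin.castSucc : Fin 2 → Fin 3)) 0)
      (cnt ((w2 m n).map (Fin.castSucc : Fin 2 → Fin 3)) 1)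
    rw [g0, g1]
    exact hP

/-- the case of `s_<` and `s_>` -/
theorem not_cone_le {P : ℕ → ℕ → Prop} {Q : ℕ → ℕ → ℕ → Prop} {i0 i1 i2 j0 j1 : Fin 3}
    (h01 : i0 ≠ i1) (h02 : i0 ≠ i2) (h12 : i1 ≠ i2) (hj : j0 ≠ j1)
    (hPQ : ∀ a : M3, (a.1 i1 ≤ a.1 i0 ∨ a.1 i2 ≤ a.1 i0) ↔ Q (a.1 0) (a.1 1) (a.1 2))
    (hP : ∀ m : Fin 3 → ℕ, P (m 0) (m 1) → m j1 ≤ m j0)
    (hP2 : ∀ N, P N N) (hjj : (j0 = 0 ∧ j1 = 1) ∨ (j0 = 1 ∧ j1 = 0)) :
    ¬ InCone (lQ Q) (sP P) := by
  intro h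
  obtain ⟨A, ⟨F, hF, hlin, rfl⟩, hA1, hA2⟩ := extract h
  have key : ∀ B ∈ F, ∃ N₀ : ℕ, ∀ x ∈ B, x.2 j0 = x.2 j1 → Q (x.1 0) (x.1 1) (x.1 2) →
      x.2 j1 ≤ N₀ := by
    intro B hB
    obtain ⟨c, Ω, h1, h2⟩ := hlin B hB
    have H : ∀ x ∈ B, (x.1 i1 ≤ x.1 i0 ∨ x.1 i2 ≤ x.1 i0) → x.2 j1 ≤ x.2 j0 := fun x hx hq =>
      hP _ (hA2 x ⟨B, hB, hx⟩ ((hPQ x).1 hq))
    obtain ⟨N1, hN1⟩ := bound_le h1 h2 h01 h02 h12 hj H
    obtain ⟨N2, hN2⟩ := bound_le h1 h2 h02 h01 h12.symm hj (fun x hx hq => H x hx hq.symm)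
    refine ⟨max N1 N2, fun x hx he hq => ?_⟩
    rcases (hPQ x).2 hq with h3 | h3
    · exact le_trans (hN1 x hx he h3) (le_max_left _ _)
    · exact le_trans (hN2 x hx he h3) (le_max_right _ _)
  choose! N₀ hN₀ using key
  obtain ⟨K, hK⟩ := (hF.image N₀).bddAbove
  obtain ⟨a, ⟨B, hB, ha⟩, hq, e0, e1⟩ := hA1 (K + 1) (K + 1) (hP2 _)
  have h1 : N₀ B ≤ K := hK ⟨B, hB, rfl⟩
  rcases hjj with ⟨rfl, rfl⟩ | ⟨rfl, rfl⟩
  · have := hN₀ B hB a ha (by rw [e0, e1]) hq
    omega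
  · have := hN₀ B hB a ha (by rw [e0, e1]) hq
    omega

/-- the case of `s_≠` -/
theorem not_cone_ne : ¬ InCone (lQ fun x y z => y ≠ x ∨ z ≠ x) (sP fun m n => n ≠ m) := by
  intro h
  obtain ⟨A, ⟨F, hF, hlin, rfl⟩, hA1, hA2⟩ := extract h
  have key : ∀ B ∈ F, ∃ k₀ : ℕ, ∀ k, k₀ ≤ k → ∀ x ∈ B, ¬ (x.1 0 = x.1 1 ∧ x.1 1 = x.1 2) →
      x.2 0 = k.factorial * k → x.2 1 = k.factorial * k + k.factorial → False := by
    intro B hB
    obtain ⟨c, Ω, h1, h2⟩ := hlin B hB
    refine bound_ne h1 h2 (fun x hx hq => hA2 x ⟨B, hB, hx⟩ ?_)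
    omega
  choose! k₀ hk₀ using key
  obtain ⟨K, hK⟩ := (hF.image k₀).bddAbove
  have hpos := Nat.factorial_pos K
  obtain ⟨a, ⟨B, hB, ha⟩, hq, e0, e1⟩ :=
    hA1 (K.factorial * K) (K.factorial * K + K.factorial) (by omega)
  have h1 : k₀ B ≤ K := hK ⟨B, hB, rfl⟩
  exact hk₀ B hB K h1 a ha (by omega) e0 e1

/-! ## The languages belong to the cones -/

/-- the two-mode transducer -/
def md (f : Bool → Fin 3 → Option (Fin 2)) : Tr (Fin 2) (Fin 3) where
  σ := Bool × Fin 3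
  fin := inferInstance
  step := fun s x y t => t.1 = s.1 ∧ s.2 ≤ t.2 ∧ y = some t.2 ∧ x = f s.1 t.2
  start := fun s => s.2 = 0
  acc := fun _ => True

theorem md_run (f : Bool → Fin 3 → Option (Fin 2)) {s t : (md f).σ} {u : List (Fin 2)}
    {v : List (Fin 3)} (h : (md f).Run s u v t) :
    v.Pairwise (· ≤ ·) ∧ (∀ a ∈ v, s.2 ≤ a) ∧ u = v.filterMap (f s.1) := by
  induction h with
  | nil p => simp
  | @cons p q r x y u v hs _ ih =>
    obtain ⟨h1, h2, h3, h4⟩ := hs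
    obtain ⟨k1, k2, k3⟩ := ih
    subst h3
    rw [Option.toList_some, List.singleton_append, List.pairwise_cons]
    refine ⟨⟨k2, k1⟩, ?_, ?_⟩
    · intro a ha
      rcases List.mem_cons.1 ha with rfl | ha
      · exact h2
      · exact le_trans h2 (k2 a ha)
    · rw [List.filterMap_cons, k3, h1, ← h4]
      cases x <;> rfl

theorem run_md (f : Bool → Fin 3 → Option (Fin 2)) (b : Bool) (v : List (Fin 3)) :
    ∀ p : Fin 3, v.Pairwise (· ≤ ·) → (∀ a ∈ v, p ≤ a) →
      ∃ t, (md f).Run (b, p) (v.filterMap (f b)) v t := by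
  induction v with
  | nil => intro p _ _; exact ⟨_, Tr.Run.nil _⟩
  | cons a v ih =>
    intro p h1 h2
    rw [List.pairwise_cons] at h1
    obtain ⟨t, ht⟩ := ih a h1.2 h1.1
    refine ⟨t, ?_⟩
    have := Tr.Run.cons (T := md f) (p := (b, p)) (q := (b, a)) (x := f b a) (y := some a)
      ⟨rfl, h2 a (by simp), rfl, rfl⟩ ht
    rw [List.filterMap_cons]
    cases hx : f b a with
    | none => rw [hx] at this; simpa using this
    | some c => rw [hx] at this; simpa using this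

theorem md_rel (f : Bool → Fin 3 → Option (Fin 2)) (u : List (Fin 2)) (v : List (Fin 3)) :
    (md f).rel u v ↔ v.Pairwise (· ≤ ·) ∧ ∃ b, u = v.filterMap (f b) := by
  constructor
  · rintro ⟨s, t, _, _, h⟩
    obtain ⟨h1, _, h3⟩ := md_run f h
    exact ⟨h1, s.1, h3⟩
  · rintro ⟨h1, b, rfl⟩
    obtain ⟨t, ht⟩ := run_md f b v 0 h1 (fun a _ => Fin.zero_le a)
    exact ⟨(b, 0), t, rfl, trivial, ht⟩

theorem in_cone (P : ℕ → ℕ → Prop) (Q : ℕ → ℕ → ℕ → Prop) (f : Bool → Fin 3 → Option (Fin 2))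
    (m n : Bool → ℕ → ℕ → ℕ → ℕ)
    (hf : ∀ b x y z, (w3 x y z).filterMap (f b) = w2 (m b x y z) (n b x y z))
    (hQ : ∀ x y z, Q x y z ↔ ∃ b, P (m b x y z) (n b x y z)) : InCone (sP P) (lQ Q) := by
  apply InCone_of_tr _ (md f)
  intro v
  constructor
  · rintro ⟨x, y, z, hq, rfl⟩
    obtain ⟨b, hb⟩ := (hQ x y z).1 hq
    exact ⟨_, ⟨_, _, hb, rfl⟩, (md_rel f _ _).2 ⟨sorted_w3 x y z, b, (hf b x y z).symm⟩⟩
  · rintro ⟨u, ⟨m', n', hP, rfl⟩, hr⟩
    obtain ⟨h1, b, hb⟩ := (md_rel f _ _).1 hr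
    refine ⟨v.count 0, v.count 1, v.count 2, (hQ _ _ _).2 ⟨b, ?_⟩, eq_w3 v h1⟩
    rw [eq_w3 v h1, hf] at hb
    obtain ⟨rfl, rfl⟩ := w2_inj hb
    exact hP

/-- erase `c`, or erase `b` and rename `c` to `b` -/
def fA : Bool → Fin 3 → Option (Fin 2)
  | true => ![some 0, some 1, none]
  | false => ![some 0, none, some 1]

/-- erase `b` and rename `c` to `b`, or erase `a` and rename `b`, `c` to `a`, `b` -/
def fB : Bool → Fin 3 → Option (Fin 2)
  | true => ![some 0, none, some 1]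
  | false => ![none, some 0, some 1]

theorem fm_rep (g : Fin 3 → Option (Fin 2)) (n : ℕ) (a : Fin 3) :
    (List.replicate n a).filterMap g = match g a with
      | none => []
      | some c => List.replicate n c := by
  induction n with
  | zero => cases g a <;> rfl
  | succ n ih =>
    rw [List.replicate_succ, List.filterMap_cons, ih]
    cases g a <;> rfl

theorem fA_w3 (b : Bool) (x y z : ℕ) :
    (w3 x y z).filterMap (fA b) = w2 x (cond b y z) := by
  unfold w3 w2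
  rw [List.filterMap_append, List.filterMap_append, fm_rep, fm_rep, fm_rep]
  cases b <;> simp [fA]

theorem fB_w3 (b : Bool) (x y z : ℕ) :
    (w3 x y z).filterMap (fB b) = w2 (cond b x y) z := by
  unfold w3 w2
  rw [List.filterMap_append, List.filterMap_append, fm_rep, fm_rep, fm_rep]
  cases b <;> simp [fB]

/-! ## Regularity and boundedness -/

theorem regular_pigeon {X : Type} {L : Language X} (h : L.IsRegular) (pre : ℕ → List X) :
    ∃ x x' : ℕ, x < x' ∧ ∀ w, pre x ++ w ∈ L ↔ pre x' ++ w ∈ L := by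
  obtain ⟨σ, hσ, M, rfl⟩ := h
  obtain ⟨x, y, hxy, he⟩ := Finite.exists_ne_map_eq_of_infinite (fun x => M.eval (pre x))
  have hgen : ∀ x y : ℕ, M.eval (pre x) = M.eval (pre y) → ∀ w,
      pre x ++ w ∈ M.accepts ↔ pre y ++ w ∈ M.accepts := by
    intro x y he w
    have a1 : ∀ v, M.eval (v ++ w) = M.evalFrom (M.eval v) w := fun v =>
      DFA.evalFrom_of_append _ _ _ _
    rw [DFA.mem_accepts, DFA.mem_accepts, a1, a1, he]
  rcases lt_or_gt_of_ne hxy with h | h
  · exact ⟨x, y, h, hgen x y he⟩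
  · exact ⟨y, x, h, hgen y x he.symm⟩

theorem mem_lQ (Q : ℕ → ℕ → ℕ → Prop) (x y z : ℕ) : w3 x y z ∈ lQ Q ↔ Q x y z := by
  constructor
  · rintro ⟨x', y', z', h, e⟩
    have := congrArg cnt e
    rw [cnt_w3, cnt_w3] at this
    have e0 := congrFun this 0
    have e1 := congrFun this 1
    have e2 := congrFun this 2
    simp only [Matrix.cons_val] at e0 e1 e2
    rw [e0, e1, e2]
    exact h
  · intro h
    exact ⟨x, y, z, h, rfl⟩

theorem lQ_bounded (Q : ℕ → ℕ → ℕ → Prop) : BoundedDeg 3 (lQ Q) := by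
  refine ⟨fun j => [j], ?_⟩
  rintro v ⟨x, y, z, _, rfl⟩
  refine ⟨![x, y, z], ?_⟩
  simp [w3, List.ofFn_succ]

theorem self_cone {X : Type} [Fintype X] (L : Language X) : InCone L L := by
  apply InCone_of_tr _ (Pool.Agent.H643R2.TrOps.idTr _)
  intro v
  constructor
  · intro h
    exact ⟨v, h, (Pool.Agent.H643R2.TrOps.idTr_rel v v).2 rfl⟩
  · rintro ⟨u, hu, h⟩
    rw [← (Pool.Agent.H643R2.TrOps.idTr_rel u v).1 h]
    exact hu

theorem not_minimal {P : ℕ → ℕ → Prop} {Q : ℕ → ℕ → ℕ → Prop} (h1 : InCone (sP P) (lQ Q))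
    (h2 : ¬ (lQ Q).IsRegular) (h3 : ¬ InCone (lQ Q) (sP P)) : ¬ MinimalBounded 3 (sP P) := by
  intro h
  rcases h (Fin 3) (lQ Q) (lQ_bounded Q) h1 with h | h
  · exact h2 h
  · exact h3 ((h (Fin 2) (sP P)).2 (self_cone _))

theorem w3_split (x y z : ℕ) : w3 x y z = List.replicate x 0 ++ w3 0 y z := by
  simp [w3]

theorem w3_split' (x y z : ℕ) : w3 x y z = w3 x y 0 ++ w3 0 0 z := by
  simp [w3]

theorem result : ¬ MinimalBounded 3 sLt ∧ ¬ MinimalBounded 3 sNe ∧ ¬ MinimalBounded 3 sGt := by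
  refine ⟨?_, ?_, ?_⟩
  · refine not_minimal (P := fun m n => n ≤ m) (Q := fun x y z => y ≤ x ∨ z ≤ x) ?_ ?_ ?_
    · refine in_cone _ _ fA (fun _ x _ _ => x) (fun b _ y z => cond b y z) fA_w3 ?_
      intro x y z
      simp [Bool.exists_bool, or_comm]
    · intro h
      obtain ⟨x, x', hlt, hw⟩ := regular_pigeon h (fun x => List.replicate x 0)
      have := hw (w3 0 x' x')
      simp only [← w3_split, mem_lQ] at this
      omega
    · refine not_cone_le (i0 := 0) (i1 := 1) (i2 := 2) (j0 := 0) (j1 := 1) (by decide) (by decide)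
        (by decide) (by decide) (fun a => Iff.rfl) (fun m h => h) (fun N => le_rfl)
        (Or.inl ⟨rfl, rfl⟩)
  · refine not_minimal (P := fun m n => n ≠ m) (Q := fun x y z => y ≠ x ∨ z ≠ x) ?_ ?_ not_cone_ne
    · refine in_cone _ _ fA (fun _ x _ _ => x) (fun b _ y z => cond b y z) fA_w3 ?_
      intro x y z
      simp [Bool.exists_bool, or_comm]
    · intro h
      obtain ⟨x, x', hlt, hw⟩ := regular_pigeon h (fun x => List.replicate x 0)
      have := hw (w3 0 x x)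
      simp only [← w3_split, mem_lQ] at this
      omega
  · refine not_minimal (P := fun m n => n ≥ m) (Q := fun x y z => x ≤ z ∨ y ≤ z) ?_ ?_ ?_
    · refine in_cone _ _ fB (fun b x y _ => cond b x y) (fun _ _ _ z => z) fB_w3 ?_
      intro x y z
      simp [Bool.exists_bool, or_comm]
    · intro h
      obtain ⟨x, x', hlt, hw⟩ := regular_pigeon h (fun x => w3 x x 0)
      have := hw (w3 0 0 x)
      simp only [← w3_split', mem_lQ] at this
      omega
    · refine not_cone_le (i0 := 2) (i1 := 0) (i2 := 1) (j0 := 1) (j1 := 0) (by decide) (by decide)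
        (by decide) (by decide) (fun a => Iff.rfl) (fun m h => h) (fun N => le_rfl)
        (Or.inr ⟨rfl, rfl⟩)

end Pool.Agent.Results.MP_3a8f7c_lc.NotMinimal
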